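import Pool.Agent.Lib.MP_6bc78b_nt.GP.Iface

/-! Project GP, module LFT, part 1: Gaussian average of a Dirichlet series times a slowly varying
function. -/

set_option autoImplicit false

open Complex Filter Topology MeasureTheory Set

namespace Pool.Agent.Lib.MP_6bc78b_nt.GP.H52

/-- `(1 + log n)² n^{-3/2}`, `0` for `n = 0`. -/
noncomputable def wt (n : ℕ) : ℝ := if n = 0 then 0 else (1 + Real.log n) ^ 2 * (n : ℝ) ^ (-(3 / 2) : ℝ)

theorem wt_nonneg (n : ℕ) : 0 ≤ wt n := by
  unfold wt; split_ifs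
  · exact le_rfl
  · positivity

theorem wt_summable : Summable wt := by
  have h1 : Summable (fun n : ℕ => 81 * (n : ℝ) ^ (-(5 / 4) : ℝ)) :=
    (Real.summable_nat_rpow.2 (by norm_num)).mul_left _
  refine Summable.of_nonneg_of_le wt_nonneg (fun n => ?_) h1
  unfold wt
  split_ifs with h
  · positivity
  · have hn : (1 : ℝ) ≤ n := by exact_mod_cast Nat.one_le_iff_ne_zero.2 h
    have hn0 : (0 : ℝ) < n := by linarith
    have h2 : Real.log n ≤ (n : ℝ) ^ (1 / 8 : ℝ) / (1 / 8) :=
      Real.log_le_rpow_div hn0.le (by norm_num)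
    have h3 : (1 : ℝ) ≤ (n : ℝ) ^ (1 / 8 : ℝ) := Real.one_le_rpow hn (by norm_num)
    have h4 : 0 ≤ Real.log n := Real.log_nonneg hn
    have h5 : (1 + Real.log n) ^ 2 ≤ (9 * (n : ℝ) ^ (1 / 8 : ℝ)) ^ 2 := by
      apply pow_le_pow_left₀ (by linarith)
      linarith
    calc (1 + Real.log n) ^ 2 * (n : ℝ) ^ (-(3 / 2) : ℝ) ≤
        (9 * (n : ℝ) ^ (1 / 8 : ℝ)) ^ 2 * (n : ℝ) ^ (-(3 / 2) : ℝ) :=
          mul_le_mul_of_nonneg_right h5 (by positivity)
      _ = 81 * ((n : ℝ) ^ (1 / 8 : ℝ) * (n : ℝ) ^ (1 / 8 : ℝ) * (n : ℝ) ^ (-(3 / 2) : ℝ)) := by ring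
      _ = 81 * (n : ℝ) ^ (-(5 / 4) : ℝ) := by
          rw [← Real.rpow_add hn0, ← Real.rpow_add hn0]; norm_num

/-- The terms of the Dirichlet series on `Re s = 3/2`. -/
theorem term_eq (f : ℕ → ℂ) (n : ℕ) (hn : n ≠ 0) (y : ℝ) :
    LSeries.term f ((3 / 2 : ℝ) - y * I) n =
      f n * (((n : ℝ) ^ (-(3 / 2) : ℝ) : ℝ) : ℂ) * Complex.exp (y * Real.log n * I) := by
  have hn0 : (0 : ℝ) < n := by exact_mod_cast Nat.pos_of_ne_zero hn
  have hnc : (n : ℂ) ≠ 0 := by exact_mod_cast hn
  rw [LSeries.term_of_ne_zero hn, div_eq_mul_inv, ← Complex.cpow_neg, mul_assoc]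
  congr 1
  rw [Complex.cpow_def_of_ne_zero hnc, Real.rpow_def_of_pos hn0, Complex.ofReal_exp,
    ← Complex.exp_add, ← Complex.natCast_log]
  congr 1
  push_cast
  ring

/-- The Gaussian factor. -/
noncomputable def gf (t H y : ℝ) : ℂ := Complex.exp ((-1 + (y - t) * I) ^ 2 / (2 * (H : ℂ) ^ 2))

theorem gf_norm (t H y : ℝ) (hH : 1 ≤ H) : ‖gf t H y‖ ≤ 3 := by
  unfold gf
  rw [Complex.norm_exp]
  have h1 : ((-1 + (y - t) * I : ℂ) ^ 2 / (2 * (H : ℂ) ^ 2)).re =
      (1 - (y - t) ^ 2) / (2 * H ^ 2) := by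
    have e : ((-1 + (y - t) * I : ℂ) ^ 2 / (2 * (H : ℂ) ^ 2)) =
        (((1 - (y - t) ^ 2) / (2 * H ^ 2) : ℝ) : ℂ) +
          ((-(2 * (y - t)) / (2 * H ^ 2) : ℝ) : ℂ) * I := by
      have hI : I ^ 2 = -1 := Complex.I_sq
      push_cast
      rw [← mul_div_right_comm, ← add_div]
      congr 1
      linear_combination ((y : ℂ) - t) ^ 2 * hI
    rw [e, Complex.add_re, Complex.ofReal_re, Complex.re_ofReal_mul, Complex.I_re]
    ring
  rw [h1]
  have h2 : (1 - (y - t) ^ 2) / (2 * H ^ 2) ≤ 1 := by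
    rw [div_le_one (by positivity)]
    nlinarith [sq_nonneg (y - t)]
  calc Real.exp ((1 - (y - t) ^ 2) / (2 * H ^ 2)) ≤ Real.exp 1 := Real.exp_le_exp.2 h2
    _ ≤ 3 := by have := Real.exp_one_lt_d9; linarith

theorem gf_cont (t H : ℝ) : Continuous (gf t H) := by
  unfold gf
  fun_prop

/-- The error term of GSL. -/
noncomputable def er (a b t H M M' : ℝ) : ℝ :=
  M' * H ^ 2 + M * (H ^ 2 / (t - a) * Real.exp (-((t - a) ^ 2 / (2 * H ^ 2))) +
    H ^ 2 / (b - t) * Real.exp (-((b - t) ^ 2 / (2 * H ^ 2))))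

theorem er_nonneg {a b t H M M' : ℝ} (ha : a < t) (hb : t < b) (hM : 0 ≤ M) (hM' : 0 ≤ M') :
    0 ≤ er a b t H M M' := by
  unfold er
  have h1 : 0 < t - a := by linarith
  have h2 : 0 < b - t := by linarith
  positivity

/-- decay of the terms `n ≥ 2` -/
theorem decay {n : ℕ} (hn : 2 ≤ n) {H : ℝ} (hH : 2 ≤ H) :
    Real.exp (Real.log n - H ^ 2 * Real.log n ^ 2 / 2) ≤ Real.exp (1 - 2 / 5 * H) := by
  apply Real.exp_le_exp.2
  have h1 : (693 : ℝ) / 1000 ≤ Real.log 2 := by have := Real.log_two_gt_d9; linarith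
  have h2 : Real.log 2 ≤ Real.log n := Real.log_le_log (by norm_num) (by exact_mod_cast hn)
  set v := Real.log n with hv
  have h3 : (693 : ℝ) / 1000 ≤ v := h1.trans h2
  have h4 : 2 * H ≤ H ^ 2 := by nlinarith
  have h5 : 2 * H * (693 / 1000 * v) ≤ H ^ 2 * v ^ 2 := by
    have : 693 / 1000 * v ≤ v ^ 2 := by nlinarith
    calc 2 * H * (693 / 1000 * v) ≤ H ^ 2 * (693 / 1000 * v) :=
          mul_le_mul_of_nonneg_right h4 (by positivity)
      _ ≤ H ^ 2 * v ^ 2 := mul_le_mul_of_nonneg_left this (by positivity)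
  nlinarith

/-- Gaussian average of `W(y) A(3/2 - iy)`. -/
theorem dir_avg (hG : GSLStatement) : ∃ C : ℝ, 0 < C ∧ ∀ (f : ℕ → ℂ) (κ : ℝ), 0 ≤ κ →
    (∀ n : ℕ, n ≠ 0 → ‖f n‖ ≤ κ * (1 + Real.log n) ^ 2) →
    ∀ (W : ℝ → ℂ) (a b t H M M' : ℝ), a < t → t < b → 2 ≤ H → 0 ≤ M → 0 ≤ M' →
    ContinuousOn W (Icc a b) → (∀ y ∈ Icc a b, ‖W y‖ ≤ M) →
    (∀ y ∈ Icc a b, ‖W y - W t‖ ≤ M' * |y - t|) →
    IntervalIntegrable (fun y => W y * LSeries f ((3 / 2 : ℝ) - y * I) * gf t H y) volume a b ∧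
    ‖(∫ y in a..b, W y * LSeries f ((3 / 2 : ℝ) - y * I) * gf t H y) -
      W t * f 1 * ((H * Real.sqrt (2 * Real.pi) : ℝ) : ℂ)‖ ≤
      κ * C * (er a b t H M M' + M * (H * Real.exp (1 - 2 / 5 * H))) := by
  obtain ⟨CG, hCG, hG⟩ := hG
  set S := ∑' n, wt n with hS
  have hS0 : 0 ≤ S := tsum_nonneg wt_nonneg
  refine ⟨S * (CG + Real.sqrt (2 * Real.pi)) + 1, by positivity, ?_⟩
  intro f κ hκ hf W a b t H M M' hat htb hH hM hM' hWc hWb hWl
  have hab : a ≤ b := (hat.trans htb).le
  have htm : t ∈ Icc a b := ⟨hat.le, htb.le⟩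
  -- the terms
  set F : ℕ → ℝ → ℂ := fun n y => W y * LSeries.term f ((3 / 2 : ℝ) - y * I) n * gf t H y with hF
  have hterm : ∀ (n : ℕ) (y : ℝ), ‖LSeries.term f ((3 / 2 : ℝ) - y * I) n‖ ≤ κ * wt n := by
    intro n y
    rcases eq_or_ne n 0 with rfl | hn
    · simp [wt]
    · rw [term_eq f n hn y, norm_mul, norm_mul, Complex.norm_real, Real.norm_of_nonneg (by positivity)]
      have h1 : ‖Complex.exp (y * Real.log n * I)‖ = 1 := by
        rw [← Complex.ofReal_mul]
        exact Complex.norm_exp_ofReal_mul_I (y * Real.log n)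
      rw [h1, mul_one]
      unfold wt
      rw [if_neg hn, ← mul_assoc]
      exact mul_le_mul_of_nonneg_right (hf n hn) (by positivity)
  have hFc : ∀ n, ContinuousOn (F n) (Icc a b) := by
    intro n
    refine (hWc.mul ?_).mul (gf_cont t H).continuousOn
    apply Continuous.continuousOn
    rcases eq_or_ne n 0 with rfl | hn
    · simp only [LSeries.term_zero]; exact continuous_const
    · have : (fun y : ℝ => LSeries.term f ((3 / 2 : ℝ) - y * I) n) = fun y : ℝ =>
          f n * (((n : ℝ) ^ (-(3 / 2) : ℝ) : ℝ) : ℂ) * Complex.exp (y * Real.log n * I) := by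
        funext y; exact term_eq f n hn y
      rw [this]
      fun_prop
  have hbd : ∀ n, ∀ y ∈ Icc a b, ‖F n y‖ ≤ M * (κ * wt n) * 3 := by
    intro n y hy
    simp only [hF, norm_mul]
    apply mul_le_mul _ (gf_norm t H y (by linarith)) (norm_nonneg _)
      (mul_nonneg hM (mul_nonneg hκ (wt_nonneg n)))
    exact mul_le_mul (hWb y hy) (hterm n y) (norm_nonneg _) hM
  have hbs : Summable fun n => M * (κ * wt n) * 3 :=
    ((wt_summable.mul_left κ).mul_left M).mul_right 3
  have hsumF : ∀ y : ℝ, Summable fun n => LSeries.term f ((3 / 2 : ℝ) - y * I) n := by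
    intro y
    exact Summable.of_norm_bounded (wt_summable.mul_left κ) (hterm · y)
  have hI : uIoc a b ⊆ Icc a b := by
    rw [uIoc_of_le hab]; exact Ioc_subset_Icc_self
  have hlim : ∀ y : ℝ, HasSum (fun n => F n y)
      (W y * LSeries f ((3 / 2 : ℝ) - y * I) * gf t H y) := by
    intro y
    exact ((hsumF y).hasSum.mul_left (W y)).mul_right (gf t H y)
  have hsum : HasSum (fun n => ∫ y in a..b, F n y)
      (∫ y in a..b, W y * LSeries f ((3 / 2 : ℝ) - y * I) * gf t H y) := by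
    refine intervalIntegral.hasSum_integral_of_dominated_convergence
      (fun n _ => M * (κ * wt n) * 3) ?_ ?_ ?_ ?_ ?_
    · intro n
      exact ((hFc n).mono hI).aestronglyMeasurable measurableSet_uIoc
    · intro n
      exact Eventually.of_forall fun y hy => hbd n y (hI hy)
    · exact Eventually.of_forall fun y _ => hbs
    · exact intervalIntegrable_const
    · exact Eventually.of_forall fun y _ => hlim y
  -- continuity of the sum
  have hcont : ContinuousOn (fun y => W y * LSeries f ((3 / 2 : ℝ) - y * I) * gf t H y)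
      (Icc a b) := by
    have h1 := continuousOn_tsum hFc hbs hbd
    refine h1.congr fun y _ => ?_
    exact (hlim y).tsum_eq.symm
  refine ⟨hcont.intervalIntegrable_of_Icc hab, ?_⟩
  -- main terms
  set mn : ℂ := W t * f 1 * ((H * Real.sqrt (2 * Real.pi) : ℝ) : ℂ) with hmn
  set E := er a b t H M M' with hE
  have hE0 : 0 ≤ E := er_nonneg hat htb hM hM'
  set R := M * (H * Real.exp (1 - 2 / 5 * H)) with hR
  have hR0 : 0 ≤ R := by positivity
  have key : ∀ n : ℕ, ‖(∫ y in a..b, F n y) - (if n = 1 then mn else 0)‖ ≤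
      κ * wt n * (CG * E + Real.sqrt (2 * Real.pi) * R) := by
    intro n
    rcases eq_or_ne n 0 with rfl | hn
    · simp [hF, wt]
    · have hn0 : (0 : ℝ) < n := by exact_mod_cast Nat.pos_of_ne_zero hn
      set c : ℂ := f n * (((n : ℝ) ^ (-(3 / 2) : ℝ) : ℝ) : ℂ) with hc
      have hcn : ‖c‖ ≤ κ * wt n := by
        rw [hc, norm_mul, Complex.norm_real, Real.norm_of_nonneg (by positivity)]
        unfold wt
        rw [if_neg hn, ← mul_assoc]
        exact mul_le_mul_of_nonneg_right (hf n hn) (by positivity)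
      have h1 : (∫ y in a..b, F n y) = c * ∫ y in a..b, W y *
          Complex.exp (y * (Real.log n : ℝ) * I) *
          Complex.exp ((-1 + (y - t) * I) ^ 2 / (2 * (H : ℂ) ^ 2)) := by
        rw [← intervalIntegral.integral_const_mul]
        refine intervalIntegral.integral_congr fun y _ => ?_
        simp only [hF]
        rw [term_eq f n hn y, gf]
        ring
      have h2 := hG W a b t H M M' (Real.log n) hat htb (by linarith) hM hM' hWc hWb hWl
      set J := ∫ y in a..b, W y * Complex.exp (y * (Real.log n : ℝ) * I) *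
          Complex.exp ((-1 + (y - t) * I) ^ 2 / (2 * (H : ℂ) ^ 2)) with hJ
      set m : ℂ := W t * Complex.exp (t * (Real.log n : ℝ) * I) *
        ((H * Real.sqrt (2 * Real.pi) : ℝ) : ℂ) *
        Complex.exp ((Real.log n : ℝ) - (H : ℂ) ^ 2 * ((Real.log n : ℝ) : ℂ) ^ 2 / 2) with hm
      have h3 : ‖J - m‖ ≤ CG * E := h2
      have h4 : ‖c * J - c * m‖ ≤ κ * wt n * (CG * E) := by
        rw [← mul_sub, norm_mul]
        exact mul_le_mul hcn h3 (norm_nonneg _) (mul_nonneg hκ (wt_nonneg n))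
      rw [h1]
      rcases eq_or_ne n 1 with rfl | hn1
      · rw [if_pos rfl]
        have h5 : c * m = mn := by
          rw [hc, hm, hmn]
          simp
          ring
        rw [h5] at h4
        refine h4.trans ?_
        apply mul_le_mul_of_nonneg_left _ (mul_nonneg hκ (wt_nonneg 1))
        have : 0 ≤ Real.sqrt (2 * Real.pi) * R := by positivity
        linarith
      · rw [if_neg hn1, sub_zero]
        have hn2 : 2 ≤ n := by omega
        have h6 : ‖m‖ ≤ Real.sqrt (2 * Real.pi) * R := by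
          rw [hm, norm_mul, norm_mul, norm_mul, Complex.norm_real,
            Real.norm_of_nonneg (by positivity)]
          have e1 : ‖Complex.exp (t * (Real.log n : ℝ) * I)‖ = 1 := by
            rw [← Complex.ofReal_mul]
            exact Complex.norm_exp_ofReal_mul_I (t * Real.log n)
          have e2 : ‖Complex.exp ((Real.log n : ℝ) -
              (H : ℂ) ^ 2 * ((Real.log n : ℝ) : ℂ) ^ 2 / 2)‖ =
              Real.exp (Real.log n - H ^ 2 * Real.log n ^ 2 / 2) := by
            rw [Complex.norm_exp]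
            congr 1
            have : ((Real.log n : ℝ) - (H : ℂ) ^ 2 * ((Real.log n : ℝ) : ℂ) ^ 2 / 2) =
                ((Real.log n - H ^ 2 * Real.log n ^ 2 / 2 : ℝ) : ℂ) := by push_cast; ring
            rw [this, Complex.ofReal_re]
          rw [e1, e2, mul_one]
          have e3 := decay hn2 hH
          have e4 := hWb t htm
          calc ‖W t‖ * (H * Real.sqrt (2 * Real.pi)) *
              Real.exp (Real.log n - H ^ 2 * Real.log n ^ 2 / 2) ≤
              M * (H * Real.sqrt (2 * Real.pi)) * Real.exp (1 - 2 / 5 * H) := by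
                apply mul_le_mul _ e3 (Real.exp_pos _).le (by positivity)
                exact mul_le_mul_of_nonneg_right e4 (by positivity)
            _ = Real.sqrt (2 * Real.pi) * R := by rw [hR]; ring
        have h7 : ‖c * m‖ ≤ κ * wt n * (Real.sqrt (2 * Real.pi) * R) := by
          rw [norm_mul]
          exact mul_le_mul hcn h6 (norm_nonneg _) (mul_nonneg hκ (wt_nonneg n))
        calc ‖c * J‖ = ‖(c * J - c * m) + c * m‖ := by rw [sub_add_cancel]
          _ ≤ ‖c * J - c * m‖ + ‖c * m‖ := norm_add_le _ _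
          _ ≤ κ * wt n * (CG * E) + κ * wt n * (Real.sqrt (2 * Real.pi) * R) := add_le_add h4 h7
          _ = κ * wt n * (CG * E + Real.sqrt (2 * Real.pi) * R) := by ring
  have hsum2 : HasSum (fun n => (∫ y in a..b, F n y) - (if n = 1 then mn else 0))
      ((∫ y in a..b, W y * LSeries f ((3 / 2 : ℝ) - y * I) * gf t H y) - mn) :=
    hsum.sub (hasSum_ite_eq 1 mn)
  have hsum3 : HasSum (fun n => κ * wt n * (CG * E + Real.sqrt (2 * Real.pi) * R))
      (κ * S * (CG * E + Real.sqrt (2 * Real.pi) * R)) :=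
    (wt_summable.hasSum.mul_left κ).mul_right _
  have h8 := hsum2.norm_le_of_bounded hsum3 key
  refine h8.trans ?_
  have h9 : 0 ≤ Real.sqrt (2 * Real.pi) := by positivity
  have h10 : 0 ≤ κ * S := by positivity
  have h11 : 0 ≤ κ * S * (CG * R) := by positivity
  have h12 : 0 ≤ κ * S * (Real.sqrt (2 * Real.pi) * E) := by positivity
  have h13 : 0 ≤ κ * (E + R) := by positivity
  nlinarith

end Pool.Agent.Lib.MP_6bc78b_nt.GP.H52
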