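import Pool.Agent.Lib.MP_6bc78b_nt.GP.H52.DirAvg
import Pool.Agent.Lib.MP_6bc78b_nt.MS.P1.OML

/-! Project GP, module LFT, part 2: the slowly varying factors on the left line. -/

set_option autoImplicit false

open Complex Filter Topology MeasureTheory Set

namespace Pool.Agent.Lib.MP_6bc78b_nt.GP.H52

open Pool.Agent.Lib.MP_6bc78b_nt.MS.P1

/-- `s = 3/2 - iy` -/
noncomputable def sl (y : ℝ) : ℂ := (3 / 2 : ℝ) - y * I

/-- the numerator of the kernel -/
noncomputable def nf (δ y : ℝ) : ℂ := Complex.exp (δ * I * (1 - sl y))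

/-- the denominator of the kernel -/
noncomputable def df (y : ℝ) : ℂ := 1 + Complex.exp (Real.pi * I * (1 - sl y))

/-- the kernel -/
noncomputable def kf (δ y : ℝ) : ℂ := nf δ y / df y

theorem one_sub_sl (y : ℝ) : 1 - sl y = -(1 / 2) + y * I := by
  unfold sl
  push_cast
  ring

theorem nf_norm (δ y : ℝ) : ‖nf δ y‖ = Real.exp (-(δ * y)) := by
  unfold nf
  rw [one_sub_sl, Complex.norm_exp]
  congr 1
  simp

theorem df_eq (y : ℝ) : df y = 1 - (Real.exp (-(Real.pi * y)) : ℂ) * I := by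
  unfold df
  rw [one_sub_sl]
  have h : (Real.pi : ℂ) * I * (-(1 / 2) + y * I) =
      ((-(Real.pi * y) : ℝ) : ℂ) + (-(Real.pi / 2 * I)) := by
    have hI : I ^ 2 = -1 := Complex.I_sq
    push_cast
    linear_combination (Real.pi : ℂ) * y * hI
  rw [h, Complex.exp_add, ← Complex.ofReal_exp]
  have h2 : Complex.exp (-(Real.pi / 2 * I)) = -I := by
    rw [Complex.exp_neg, Complex.exp_pi_div_two_mul_I, Complex.inv_I]
  rw [h2]
  ring

theorem df_re (y : ℝ) : (df y).re = 1 := by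
  rw [df_eq, Complex.sub_re, Complex.one_re, Complex.re_ofReal_mul, Complex.I_re, mul_zero,
    sub_zero]

theorem df_norm_ge (y : ℝ) : 1 ≤ ‖df y‖ := by
  have := Complex.abs_re_le_norm (df y)
  rw [df_re] at this
  simpa using this

theorem df_norm_le {y : ℝ} (hy : 0 ≤ y) : ‖df y‖ ≤ 2 := by
  rw [df_eq]
  refine (norm_sub_le _ _).trans ?_
  rw [norm_mul, Complex.norm_real, Complex.norm_I, norm_one, mul_one,
    Real.norm_of_nonneg (Real.exp_pos _).le]
  have : Real.exp (-(Real.pi * y)) ≤ 1 := Real.exp_le_one_iff.2 (by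
    have := Real.pi_pos
    have := mul_nonneg this.le hy
    linarith)
  linarith

theorem df_ne (y : ℝ) : df y ≠ 0 := by
  intro h
  have := df_norm_ge y
  rw [h, norm_zero] at this
  linarith

theorem hasDeriv_sl (y : ℝ) : HasDerivAt sl (-I) y := by
  unfold sl
  have h1 : HasDerivAt (fun y : ℝ => (y : ℂ)) 1 y := Complex.ofRealCLM.hasDerivAt
  have h2 := (h1.mul_const I).const_sub ((3 / 2 : ℝ) : ℂ)
  simpa using h2

theorem hasDeriv_nf (δ y : ℝ) : HasDerivAt (nf δ) (nf δ y * (δ * I * I)) y := by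
  unfold nf
  have h1 := ((hasDeriv_sl y).const_sub (1 : ℂ)).const_mul ((δ : ℂ) * I)
  have h2 := h1.cexp
  simpa using h2

theorem hasDeriv_df (y : ℝ) :
    HasDerivAt df (Complex.exp (Real.pi * I * (1 - sl y)) * (Real.pi * I * I)) y := by
  unfold df
  have h1 := ((hasDeriv_sl y).const_sub (1 : ℂ)).const_mul ((Real.pi : ℂ) * I)
  have h2 := h1.cexp.const_add (1 : ℂ)
  simpa using h2

theorem deriv_nf_bd {δ y : ℝ} (hδ : 0 ≤ δ) (hy : 0 ≤ y) : ‖nf δ y * (δ * I * I)‖ ≤ δ := by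
  rw [norm_mul, nf_norm, norm_mul, norm_mul, Complex.norm_I, Complex.norm_real,
    Real.norm_of_nonneg hδ, mul_one, mul_one]
  have : Real.exp (-(δ * y)) ≤ 1 := Real.exp_le_one_iff.2 (by
    have := mul_nonneg hδ hy
    linarith)
  nlinarith

theorem deriv_df_bd {y : ℝ} (hy : 0 < y) :
    ‖Complex.exp (Real.pi * I * (1 - sl y)) * (Real.pi * I * I)‖ ≤ 1 / y := by
  rw [one_sub_sl, norm_mul, Complex.norm_exp]
  have h1 : ((Real.pi : ℂ) * I * (-(1 / 2) + y * I)).re = -(Real.pi * y) := by simp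
  rw [h1, norm_mul, norm_mul, Complex.norm_I, Complex.norm_real,
    Real.norm_of_nonneg Real.pi_pos.le, mul_one, mul_one, Real.exp_neg, inv_mul_le_iff₀
    (Real.exp_pos _)]
  have h2 := Real.add_one_le_exp (Real.pi * y)
  rw [mul_one_div, le_div_iff₀ hy]
  linarith

theorem kf_norm {δ y : ℝ} (hδ : 0 ≤ δ) (hy : 0 ≤ y) : ‖kf δ y‖ ≤ 1 := by
  unfold kf
  rw [norm_div, nf_norm, div_le_one (by linarith [df_norm_ge y])]
  refine le_trans ?_ (df_norm_ge y)
  exact Real.exp_le_one_iff.2 (by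
    have := mul_nonneg hδ hy
    linarith)

theorem kf_norm_ge {δ y : ℝ} (hy : 0 ≤ y) (h : δ * y ≤ 4) : 1 / 120 ≤ ‖kf δ y‖ := by
  unfold kf
  rw [norm_div, nf_norm, le_div_iff₀ (by linarith [df_norm_ge y])]
  have h1 := df_norm_le hy
  have h2 : Real.exp (-4) ≤ Real.exp (-(δ * y)) := Real.exp_le_exp.2 (by linarith)
  have h3 : (1 : ℝ) / 60 ≤ Real.exp (-4) := by
    rw [Real.exp_neg, one_div]
    apply inv_anti₀ (Real.exp_pos _)
    have h4 : Real.exp 4 = Real.exp 1 ^ 4 := by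
      rw [← Real.exp_nat_mul]; norm_num
    rw [h4]
    have h5 := Real.exp_one_lt_d9.le
    calc Real.exp 1 ^ 4 ≤ 2.7182818286 ^ 4 := pow_le_pow_left₀ (Real.exp_pos _).le h5 4
      _ ≤ 60 := by norm_num
  linarith

/-- The kernel is slowly varying on `[T/2, 4T]`. -/
theorem kf_lip {T δ : ℝ} (hT : 0 < T) (hδ0 : 0 ≤ δ) (hδ : δ ≤ 2 / T) {y t : ℝ}
    (hy : y ∈ Icc (T / 2) (4 * T)) (ht : t ∈ Icc (T / 2) (4 * T)) :
    ‖kf δ y - kf δ t‖ ≤ 4 / T * |y - t| := by
  have hpos : ∀ x ∈ Icc (T / 2) (4 * T), 0 < x := fun x hx => by linarith [hx.1]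
  have h1 : ‖nf δ y - nf δ t‖ ≤ 2 / T * ‖y - t‖ := by
    refine Convex.norm_image_sub_le_of_norm_hasDerivWithin_le (f := nf δ)
      (fun x _ => (hasDeriv_nf δ x).hasDerivWithinAt) (fun x hx => ?_) (convex_Icc _ _) ht hy
    exact (deriv_nf_bd hδ0 (hpos x hx).le).trans hδ
  have h2 : ‖df y - df t‖ ≤ 2 / T * ‖y - t‖ := by
    refine Convex.norm_image_sub_le_of_norm_hasDerivWithin_le (f := df)
      (fun x _ => (hasDeriv_df x).hasDerivWithinAt) (fun x hx => ?_) (convex_Icc _ _) ht hy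
    refine (deriv_df_bd (hpos x hx)).trans ?_
    rw [div_le_div_iff₀ (hpos x hx) hT]
    linarith [hx.1]
  have h3 : kf δ y - kf δ t = (nf δ y - nf δ t) / df y -
      kf δ t * (df y - df t) / df y := by
    unfold kf
    field_simp [df_ne y, df_ne t]
    ring
  have h4 := df_norm_ge y
  have h5 : ‖(nf δ y - nf δ t) / df y‖ ≤ 2 / T * ‖y - t‖ := by
    rw [norm_div]
    exact (div_le_self (norm_nonneg _) h4).trans h1
  have h6 : ‖kf δ t * (df y - df t) / df y‖ ≤ 2 / T * ‖y - t‖ := by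
    rw [norm_div, norm_mul]
    refine (div_le_self (by positivity) h4).trans ?_
    refine le_trans ?_ h2
    exact mul_le_of_le_one_left (norm_nonneg _) (kf_norm hδ0 (hpos t ht).le)
  rw [h3, ← Real.norm_eq_abs]
  refine (norm_sub_le _ _).trans ?_
  have : 4 / T * ‖y - t‖ = 2 / T * ‖y - t‖ + 2 / T * ‖y - t‖ := by ring
  linarith

theorem kf_cont (δ : ℝ) : Continuous (kf δ) := by
  unfold kf
  refine Continuous.div ?_ ?_ df_ne
  · exact continuous_iff_continuousAt.2 fun x => (hasDeriv_nf δ x).continuousAt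
  · exact continuous_iff_continuousAt.2 fun x => (hasDeriv_df x).continuousAt

/-- Product with a bounded slowly varying function. -/
theorem kf_mul_lip {T δ : ℝ} (hT : 0 < T) (hδ0 : 0 ≤ δ) (hδ : δ ≤ 2 / T) {w : ℝ → ℂ} {m l : ℝ}
    (hw : ∀ y ∈ Icc (T / 2) (4 * T), ‖w y‖ ≤ m)
    (hl : ∀ y ∈ Icc (T / 2) (4 * T), ∀ t ∈ Icc (T / 2) (4 * T), ‖w y - w t‖ ≤ l * |y - t|)
    {y t : ℝ} (hy : y ∈ Icc (T / 2) (4 * T)) (ht : t ∈ Icc (T / 2) (4 * T)) :
    ‖kf δ y * w y - kf δ t * w t‖ ≤ (4 / T * m + l) * |y - t| := by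
  have e : kf δ y * w y - kf δ t * w t = (kf δ y - kf δ t) * w y + kf δ t * (w y - w t) := by ring
  have ht0 : 0 ≤ t := by linarith [ht.1]
  rw [e]
  refine (norm_add_le _ _).trans ?_
  rw [norm_mul, norm_mul, add_mul]
  apply add_le_add
  · calc ‖kf δ y - kf δ t‖ * ‖w y‖ ≤ (4 / T * |y - t|) * m :=
          mul_le_mul (kf_lip hT hδ0 hδ hy ht) (hw y hy) (norm_nonneg _) (by positivity)
      _ = 4 / T * m * |y - t| := by ring
  · exact (mul_le_of_le_one_left (norm_nonneg _) (kf_norm hδ0 ht0)).trans (hl y hy t ht)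

/-- the main coefficient -/
noncomputable def w0 (A B y : ℝ) : ℂ :=
  om (sl y) ^ 2 / 2 - deriv om (sl y) / 2 - A * om (sl y) - B

/-- the coefficient of `ζ'` -/
noncomputable def w1 (A y : ℝ) : ℂ := om (sl y) - A

theorem sl_mem {y : ℝ} (hy : 0 < y) : sl y ∈ OML.UU := by
  apply OML.upper_mem
  · simp [sl]
  · simp [sl]; exact hy.ne'

theorem hasDeriv_om {y : ℝ} (hy : 0 < y) :
    HasDerivAt (fun y => om (sl y)) (deriv om (sl y) * (-I)) y :=
  (OML.om_diffAt (sl_mem hy)).hasDerivAt.comp_of_eq y (hasDeriv_sl y) rfl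

theorem hasDeriv_om' {y : ℝ} (hy : 0 < y) :
    HasDerivAt (fun y => deriv om (sl y)) (deriv (deriv om) (sl y) * (-I)) y := by
  have h1 : DifferentiableAt ℂ (deriv om) (sl y) :=
    (OML.om_diffOn.deriv OML.UU_open).differentiableAt (OML.UU_open.mem_nhds (sl_mem hy))
  exact h1.hasDerivAt.comp_of_eq y (hasDeriv_sl y) rfl

theorem hasDeriv_w1 (A : ℝ) {y : ℝ} (hy : 0 < y) :
    HasDerivAt (w1 A) (deriv om (sl y) * (-I)) y := by
  unfold w1
  exact (hasDeriv_om hy).sub_const _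

theorem hasDeriv_w0 (A B : ℝ) {y : ℝ} (hy : 0 < y) :
    HasDerivAt (w0 A B) ((om (sl y) * deriv om (sl y) - deriv (deriv om) (sl y) / 2 -
      A * deriv om (sl y)) * (-I)) y := by
  unfold w0
  have h1 := hasDeriv_om hy
  have h2 := hasDeriv_om' hy
  have h3 := (((h1.pow 2).div_const 2).sub (h2.div_const 2)).sub (h1.const_mul (A : ℂ))
  have h4 := h3.sub_const (B : ℂ)
  refine h4.congr_deriv ?_
  push_cast
  ring

/-- All bounds for the coefficients on `[T/2, 4T]`. -/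
theorem coef (hO : OMDStatement) (A B : ℝ) : ∃ C T₀ : ℝ, 0 < C ∧ 100 < T₀ ∧ ∀ T : ℝ, T₀ ≤ T →
    1 ≤ Real.log T ∧
    (∀ y ∈ Icc (T / 2) (4 * T), ‖w0 A B y‖ ≤ 3 * Real.log T ^ 2) ∧
    (∀ y ∈ Icc (T / 2) (4 * T), ‖w1 A y‖ ≤ 3 * Real.log T ^ 2) ∧
    (∀ y ∈ Icc (T / 2) (4 * T), ∀ t ∈ Icc (T / 2) (4 * T),
      ‖w0 A B y - w0 A B t‖ ≤ C * Real.log T ^ 2 / T * |y - t|) ∧
    (∀ y ∈ Icc (T / 2) (4 * T), ∀ t ∈ Icc (T / 2) (4 * T),
      ‖w1 A y - w1 A t‖ ≤ C * Real.log T ^ 2 / T * |y - t|) ∧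
    (∀ y ∈ Icc T (2 * T), Real.log T ^ 2 / 3 ≤ ‖w0 A B y‖) := by
  obtain ⟨C, hC, hom⟩ := hO
  set L₀ : ℝ := 20 + 12 * |A| + 6 * |B| with hL₀
  have hA := abs_nonneg A
  have hB := abs_nonneg B
  refine ⟨5 * C, max (Real.exp L₀) (max 101 (2 * C)), by positivity, ?_, ?_⟩
  · exact lt_of_lt_of_le (by norm_num) (le_trans (le_max_left _ _) (le_max_right _ _))
  intro T hT
  have hT1 : Real.exp L₀ ≤ T := le_trans (le_max_left _ _) hT
  have hT2 : 101 ≤ T := le_trans (le_trans (le_max_left _ _) (le_max_right _ _)) hT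
  have hT3 : 2 * C ≤ T := le_trans (le_trans (le_max_right _ _) (le_max_right _ _)) hT
  have hT0 : 0 < T := by linarith
  set L := Real.log T with hL
  have hLL : L₀ ≤ L := by
    rw [hL, ← Real.log_exp L₀]
    exact Real.log_le_log (Real.exp_pos _) hT1
  have hL1 : 20 ≤ L := by linarith
  have hpi := Real.pi_gt_three
  have hpi4 := Real.pi_le_four
  -- basic bounds
  have b0 : ∀ y ∈ Icc (T / 2) (4 * T), 1 ≤ y ∧ C / y ≤ 2 * C / T ∧ C / y ≤ 1 := by
    intro y hy
    have hy1 : 1 ≤ y := by linarith [hy.1]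
    refine ⟨hy1, ?_, ?_⟩
    · rw [div_le_div_iff₀ (by linarith) hT0]
      nlinarith [hy.1]
    · rw [div_le_one (by linarith)]
      linarith [hy.1]
  have b1 : ∀ y ∈ Icc (T / 2) (4 * T), ‖om (sl y)‖ ≤ 2 * L := by
    intro y hy
    obtain ⟨hy1, -, hy3⟩ := b0 y hy
    have h1 := (hom y hy1).1
    have h2 : ‖((Real.log (y / (2 * Real.pi)) : ℝ) : ℂ)‖ ≤ L := by
      rw [Complex.norm_real, Real.norm_eq_abs, abs_le]
      constructor
      · have : 0 ≤ Real.log (y / (2 * Real.pi)) := by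
          apply Real.log_nonneg
          rw [le_div_iff₀ (by positivity)]
          linarith [hy.1]
        linarith
      · apply Real.log_le_log (by positivity)
        rw [div_le_iff₀ (by positivity)]
        nlinarith [hy.2]
    have h3 : ‖om (sl y)‖ ≤ ‖om (sl y) - ((Real.log (y / (2 * Real.pi)) : ℝ) : ℂ)‖ +
        ‖((Real.log (y / (2 * Real.pi)) : ℝ) : ℂ)‖ := by
      have := norm_add_le (om (sl y) - ((Real.log (y / (2 * Real.pi)) : ℝ) : ℂ))
        ((Real.log (y / (2 * Real.pi)) : ℝ) : ℂ)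
      rwa [sub_add_cancel] at this
    have h4 : ‖om (sl y) - ((Real.log (y / (2 * Real.pi)) : ℝ) : ℂ)‖ ≤ C / y := h1
    linarith
  have b2 : ∀ y ∈ Icc (T / 2) (4 * T), ‖deriv om (sl y)‖ ≤ 2 * C / T ∧
      ‖deriv om (sl y)‖ ≤ 1 := by
    intro y hy
    obtain ⟨hy1, hy2, hy3⟩ := b0 y hy
    have h1 : ‖deriv om (sl y)‖ ≤ C / y := (hom y hy1).2.1
    exact ⟨h1.trans hy2, h1.trans hy3⟩
  have b3 : ∀ y ∈ Icc (T / 2) (4 * T), ‖deriv (deriv om) (sl y)‖ ≤ 2 * C / T := by
    intro y hy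
    obtain ⟨hy1, hy2, -⟩ := b0 y hy
    have h1 : ‖deriv (deriv om) (sl y)‖ ≤ C / y := (hom y hy1).2.2
    exact h1.trans hy2
  have hpos : ∀ x ∈ Icc (T / 2) (4 * T), 0 < x := fun x hx => by linarith [hx.1]
  have nA : ‖(A : ℂ)‖ = |A| := by rw [Complex.norm_real, Real.norm_eq_abs]
  have nB : ‖(B : ℂ)‖ = |B| := by rw [Complex.norm_real, Real.norm_eq_abs]
  refine ⟨by linarith, ?_, ?_, ?_, ?_, ?_⟩
  · intro y hy
    have h1 := b1 y hy
    have h2 := (b2 y hy).2
    have h3 : ‖w0 A B y‖ ≤ ‖om (sl y)‖ ^ 2 / 2 + ‖deriv om (sl y)‖ / 2 + |A| * ‖om (sl y)‖ + |B| := by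
      unfold w0
      refine (norm_sub_le _ _).trans ?_
      rw [nB]
      gcongr
      refine (norm_sub_le _ _).trans ?_
      rw [norm_mul, nA]
      gcongr
      refine (norm_sub_le _ _).trans ?_
      rw [norm_div, norm_div, norm_pow]
      norm_num
    have h4 : ‖om (sl y)‖ ^ 2 ≤ (2 * L) ^ 2 := pow_le_pow_left₀ (norm_nonneg _) h1 2
    have h5 : |A| * ‖om (sl y)‖ ≤ |A| * (2 * L) := mul_le_mul_of_nonneg_left h1 hA
    nlinarith
  · intro y hy
    have h1 := b1 y hy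
    have h3 : ‖w1 A y‖ ≤ ‖om (sl y)‖ + |A| := by
      unfold w1
      refine (norm_sub_le _ _).trans ?_
      rw [nA]
    nlinarith
  · intro y hy t ht
    have h1 : ‖w0 A B y - w0 A B t‖ ≤ 5 * C * L ^ 2 / T * ‖y - t‖ := by
      refine Convex.norm_image_sub_le_of_norm_hasDerivWithin_le (f := w0 A B)
        (fun x hx => (hasDeriv_w0 A B (hpos x hx)).hasDerivWithinAt) (fun x hx => ?_)
        (convex_Icc _ _) ht hy
      rw [norm_mul, norm_neg, Complex.norm_I, mul_one]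
      have c1 := b1 x hx
      have c2 := (b2 x hx).1
      have c3 := b3 x hx
      have c4 : ‖om (sl x) * deriv om (sl x) - deriv (deriv om) (sl x) / 2 -
          A * deriv om (sl x)‖ ≤ 2 * L * (2 * C / T) + 2 * C / T / 2 + |A| * (2 * C / T) := by
        refine (norm_sub_le _ _).trans ?_
        apply add_le_add
        · refine (norm_sub_le _ _).trans ?_
          apply add_le_add
          · rw [norm_mul]
            exact mul_le_mul c1 c2 (norm_nonneg _) (by positivity)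
          · rw [norm_div]
            simp only [Complex.norm_ofNat]
            linarith
        · rw [norm_mul, nA]
          exact mul_le_mul_of_nonneg_left c2 hA
      refine c4.trans ?_
      have e : 2 * L * (2 * C / T) + 2 * C / T / 2 + |A| * (2 * C / T) =
          C / T * (4 * L + 1 + 2 * |A|) := by ring
      have e2 : 5 * C * L ^ 2 / T = C / T * (5 * L ^ 2) := by ring
      rw [e, e2]
      apply mul_le_mul_of_nonneg_left _ (by positivity)
      nlinarith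
    rwa [Real.norm_eq_abs] at h1
  · intro y hy t ht
    have h1 : ‖w1 A y - w1 A t‖ ≤ 5 * C * L ^ 2 / T * ‖y - t‖ := by
      refine Convex.norm_image_sub_le_of_norm_hasDerivWithin_le (f := w1 A)
        (fun x hx => (hasDeriv_w1 A (hpos x hx)).hasDerivWithinAt) (fun x hx => ?_)
        (convex_Icc _ _) ht hy
      rw [norm_mul, norm_neg, Complex.norm_I, mul_one]
      refine (b2 x hx).1.trans ?_
      have e2 : 5 * C * L ^ 2 / T = C / T * (5 * L ^ 2) := by ring
      have e3 : 2 * C / T = C / T * 2 := by ring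
      rw [e2, e3]
      apply mul_le_mul_of_nonneg_left _ (by positivity)
      nlinarith
    rwa [Real.norm_eq_abs] at h1
  · intro y hy
    have hy' : y ∈ Icc (T / 2) (4 * T) := ⟨by linarith [hy.1], by linarith [hy.2]⟩
    obtain ⟨hy1, -, hy3⟩ := b0 y hy'
    have h1 := b1 y hy'
    have h2 := (b2 y hy').2
    -- lower bound for om
    have h3 : ‖om (sl y) - ((Real.log (y / (2 * Real.pi)) : ℝ) : ℂ)‖ ≤ C / y := (hom y hy1).1
    have h4 : L - 2.1 ≤ Real.log (y / (2 * Real.pi)) := by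
      have h5 : T / 8 ≤ y / (2 * Real.pi) := by
        rw [div_le_div_iff₀ (by norm_num) (by positivity)]
        nlinarith [hy.1]
      have h6 := Real.log_le_log (by positivity) h5
      rw [Real.log_div hT0.ne' (by norm_num)] at h6
      have h7 : Real.log 8 ≤ 2.1 := by
        rw [show (8 : ℝ) = 2 ^ 3 by norm_num, Real.log_pow]
        have := Real.log_two_lt_d9
        push_cast
        linarith
      linarith
    have h5 : L - 3.1 ≤ ‖om (sl y)‖ := by
      have h6 : Real.log (y / (2 * Real.pi)) ≤ ‖((Real.log (y / (2 * Real.pi)) : ℝ) : ℂ)‖ := by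
        rw [Complex.norm_real]; exact Real.le_norm_self _
      have h7 : ‖((Real.log (y / (2 * Real.pi)) : ℝ) : ℂ)‖ ≤ ‖om (sl y)‖ +
          ‖om (sl y) - ((Real.log (y / (2 * Real.pi)) : ℝ) : ℂ)‖ := by
        have := norm_sub_le (om (sl y)) (om (sl y) - ((Real.log (y / (2 * Real.pi)) : ℝ) : ℂ))
        rwa [sub_sub_cancel] at this
      linarith
    have h8 : ‖om (sl y) ^ 2 / 2‖ ≤ ‖w0 A B y‖ + ‖deriv om (sl y)‖ / 2 + |A| * ‖om (sl y)‖ + |B| := by
      have e : om (sl y) ^ 2 / 2 = w0 A B y + deriv om (sl y) / 2 + A * om (sl y) + B := by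
        unfold w0; ring
      rw [e]
      refine (norm_add_le _ _).trans ?_
      rw [nB]
      gcongr
      refine (norm_add_le _ _).trans ?_
      rw [norm_mul, nA]
      gcongr
      refine (norm_add_le _ _).trans ?_
      rw [norm_div]
      norm_num
    rw [norm_div, norm_pow] at h8
    simp only [Complex.norm_ofNat] at h8
    have h9 : (L - 3.1) ^ 2 ≤ ‖om (sl y)‖ ^ 2 := pow_le_pow_left₀ (by linarith) h5 2
    have h10 : |A| * ‖om (sl y)‖ ≤ |A| * (2 * L) := mul_le_mul_of_nonneg_left h1 hA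
    nlinarith

end Pool.Agent.Lib.MP_6bc78b_nt.GP.H52
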